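import Mathlib

set_option autoImplicit false

namespace Pool.Agent.Results.MP_3951c0_co.IsometricDrop

/-- The eccentricity of `v` in `G`: the largest distance from a vertex of `G` to `v`. -/
noncomputable def ecc {V : Type} [Fintype V] (G : SimpleGraph V) (v : V) : ℕ :=
  Finset.univ.sup fun u => G.dist u v

/-- A broadcast on `G`: a function `f` to the natural numbers with `f v` at most the
eccentricity of `v`, for every vertex `v`. -/
def IsBroadcast {V : Type} [Fintype V] (G : SimpleGraph V) (f : V → ℕ) : Prop :=
  ∀ v, f v ≤ ecc G v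

/-- The cost of a broadcast: the sum of its values. -/
def cost {V : Type} [Fintype V] (f : V → ℕ) : ℕ := ∑ v, f v

/-- The vertex `u` hears the broadcast `f` from `v`. -/
def Hears {V : Type} (G : SimpleGraph V) (f : V → ℕ) (u v : V) : Prop :=
  0 < f v ∧ G.dist u v ≤ f v

/-- Every vertex hears `f` from some vertex. -/
def IsDominating {V : Type} (G : SimpleGraph V) (f : V → ℕ) : Prop :=
  ∀ u, ∃ v, Hears G f u v

/-- `f` is a minimal dominating broadcast: a dominating broadcast such that no broadcast
`g ≠ f` with `g v ≤ f v` for all `v` is dominating. -/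
def IsMinimalDominating {V : Type} [Fintype V] (G : SimpleGraph V) (f : V → ℕ) : Prop :=
  IsBroadcast G f ∧ IsDominating G f ∧
    ∀ g : V → ℕ, IsBroadcast G g → g ≠ f → (∀ v, g v ≤ f v) → ¬ IsDominating G g

/-- The upper broadcast number: the largest cost of a minimal dominating broadcast
(a maximum over a finite nonempty set when `G` is finite, connected and has at least
two vertices). -/
noncomputable def upperBroadcast {V : Type} [Fintype V] (G : SimpleGraph V) : ℕ :=
  sSup {c | ∃ f : V → ℕ, IsMinimalDominating G f ∧ cost f = c}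

/-! ### Computing distances -/

theorem le_length_of_walk {V : Type} (G : SimpleGraph V) (D : V → V → ℕ)
    (h0 : ∀ v, D v v = 0) (h1 : ∀ u u' v, G.Adj u u' → D u v ≤ D u' v + 1) :
    ∀ {u v : V} (p : G.Walk u v), D u v ≤ p.length := by
  intro u v p
  induction p with
  | nil => simp [h0]
  | cons h p ih =>
    rw [SimpleGraph.Walk.length_cons]
    exact (h1 _ _ _ h).trans (by omega)

theorem exists_walk {V : Type} (G : SimpleGraph V) (D : V → V → ℕ)
    (h2 : ∀ u v, u ≠ v → ∃ u', G.Adj u u' ∧ D u' v + 1 = D u v) :
    ∀ (n : ℕ) (u v : V), D u v = n → ∃ p : G.Walk u v, p.length ≤ n := by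
  intro n
  induction n with
  | zero =>
    intro u v h
    by_cases huv : u = v
    · subst huv; exact ⟨SimpleGraph.Walk.nil, le_refl _⟩
    · obtain ⟨u', _, h'⟩ := h2 u v huv
      omega
  | succ n ih =>
    intro u v h
    by_cases huv : u = v
    · subst huv; exact ⟨SimpleGraph.Walk.nil, Nat.zero_le _⟩
    · obtain ⟨u', ha, h'⟩ := h2 u v huv
      obtain ⟨p, hp⟩ := ih u' v (by omega)
      refine ⟨SimpleGraph.Walk.cons ha p, ?_⟩
      rw [SimpleGraph.Walk.length_cons]; omega

theorem dist_eq {V : Type} (G : SimpleGraph V) (D : V → V → ℕ)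
    (h0 : ∀ v, D v v = 0) (h1 : ∀ u u' v, G.Adj u u' → D u v ≤ D u' v + 1)
    (h2 : ∀ u v, u ≠ v → ∃ u', G.Adj u u' ∧ D u' v + 1 = D u v) (u v : V) :
    G.dist u v = D u v := by
  obtain ⟨p, hp⟩ := exists_walk G D h2 _ u v rfl
  apply le_antisymm
  · exact (SimpleGraph.dist_le p).trans hp
  · obtain ⟨q, hq⟩ := (SimpleGraph.Reachable.exists_walk_length_eq_dist ⟨p⟩ :
      ∃ q : G.Walk u v, q.length = G.dist u v)
    rw [← hq]
    exact le_length_of_walk G D h0 h1 q

theorem preconnected {V : Type} (G : SimpleGraph V) (D : V → V → ℕ)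
    (h2 : ∀ u v, u ≠ v → ∃ u', G.Adj u u' ∧ D u' v + 1 = D u v) : G.Preconnected := by
  intro u v
  obtain ⟨p, _⟩ := exists_walk G D h2 _ u v rfl
  exact ⟨p⟩

/-! ### The two graphs -/

/-- Packed distance table of the graph on eight vertices (one hexadecimal digit per pair). -/
def packed : ℕ :=
  1392504597741974685074925290482805886882739283277428339161936281275874808080

/-- The distance function read off from the packed table. -/
def dm (u v : ℕ) : ℕ := (packed >>> (4 * (8 * u + v))) % 16

/-- The larger graph `H`, on the vertices `0, …, 7`, with edges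
`01, 02, 03, 14, 25, 35, 36, 27, 57`. -/
def H : SimpleGraph (Fin 8) where
  Adj u v := dm u v = 1
  symm := by
    have : ∀ u v : Fin 8, dm u v = 1 → dm v u = 1 := by decide +kernel
    exact ⟨this⟩
  loopless := by
    refine ⟨?_⟩
    have : ∀ u : Fin 8, ¬ dm u u = 1 := by decide +kernel
    exact this

instance : DecidableRel H.Adj := fun u v => inferInstanceAs (Decidable (dm u v = 1))

/-- The edges of `H`, spelled out. -/
theorem H_adj_iff (u v : Fin 8) : H.Adj u v ↔
    (u, v) ∈ ([(0, 1), (0, 2), (0, 3), (1, 4), (2, 5), (3, 5), (3, 6), (2, 7), (5, 7),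
      (1, 0), (2, 0), (3, 0), (4, 1), (5, 2), (5, 3), (6, 3), (7, 2), (7, 5)] :
      List (Fin 8 × Fin 8)) := by
  revert u v; decide +kernel

/-- The smaller graph `G`: the subgraph of `H` induced on the vertices `0, …, 6`. -/
def G : H.Subgraph := (⊤ : H.Subgraph).induce {v | v ≠ 7}

theorem mem_G (v : Fin 8) : v ∈ G.verts ↔ v ≠ 7 := by
  simp [G]

theorem G_adj (u v : G.verts) : G.coe.Adj u v ↔ H.Adj u v := by
  have hu := (mem_G u.1).1 u.2
  have hv := (mem_G v.1).1 v.2
  rw [SimpleGraph.Subgraph.coe_adj]
  unfold G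
  rw [SimpleGraph.Subgraph.induce_adj]
  constructor
  · rintro ⟨_, _, h⟩; exact h
  · intro h; exact ⟨hu, hv, h⟩

noncomputable instance : Fintype G.verts := Fintype.ofFinite _

theorem H_dist (u v : Fin 8) : H.dist u v = dm u v := by
  apply dist_eq H (fun u v => dm u v)
  · decide +kernel
  · have : ∀ u u' v : Fin 8, dm u u' = 1 → dm u v ≤ dm u' v + 1 := by decide +kernel
    exact this
  · have : ∀ u v : Fin 8, u ≠ v → ∃ u' : Fin 8, dm u u' = 1 ∧ dm u' v + 1 = dm u v := by
      decide +kernel
    exact this

theorem H_connected : H.Connected := by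
  have : Nonempty (Fin 8) := ⟨0⟩
  refine ⟨?_⟩
  apply preconnected H (fun u v => dm u v)
  have : ∀ u v : Fin 8, u ≠ v → ∃ u' : Fin 8, dm u u' = 1 ∧ dm u' v + 1 = dm u v := by
    decide +kernel
  exact this

theorem G_step (u v : G.verts) (h : u ≠ v) :
    ∃ u' : G.verts, G.coe.Adj u u' ∧ dm (u'.1 : ℕ) (v.1 : ℕ) + 1 = dm (u.1 : ℕ) (v.1 : ℕ) := by
  have key : ∀ u v : Fin 8, u ≠ 7 → v ≠ 7 → u ≠ v →
      ∃ u' : Fin 8, u' ≠ 7 ∧ dm u u' = 1 ∧ dm u' v + 1 = dm u v := by
    decide +kernel
  obtain ⟨u', h7, h1, h2⟩ := key u.1 v.1 ((mem_G _).1 u.2) ((mem_G _).1 v.2)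
    (fun hh => h (Subtype.ext hh))
  exact ⟨⟨u', (mem_G _).2 h7⟩, (G_adj _ _).2 h1, h2⟩

theorem G_dist (u v : G.verts) : G.coe.dist u v = dm (u.1 : ℕ) (v.1 : ℕ) := by
  apply dist_eq G.coe (fun u v => dm (u.1 : ℕ) (v.1 : ℕ))
  · intro v
    have : ∀ v : Fin 8, dm v v = 0 := by decide +kernel
    exact this v.1
  · intro u u' v h
    have : ∀ u u' v : Fin 8, dm u u' = 1 → dm u v ≤ dm u' v + 1 := by decide +kernel
    exact this u.1 u'.1 v.1 ((G_adj _ _).1 h)
  · exact G_step

theorem G_connected : G.coe.Connected := by
  have : Nonempty G.verts := ⟨⟨0, (mem_G _).2 (by decide)⟩⟩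
  exact ⟨preconnected G.coe (fun u v => dm (u.1 : ℕ) (v.1 : ℕ)) G_step⟩

/-! ### Basic facts on minimal dominating broadcasts -/

/-- In a minimal dominating broadcast every broadcasting vertex `v` has a private vertex: one
that hears `f` only from `v` and is at distance exactly `f v` from `v`, or is `v` itself in
case `f v = 1`. -/
theorem exists_private {V : Type} [Fintype V] [DecidableEq V] (K : SimpleGraph V) (f : V → ℕ)
    (hf : IsMinimalDominating K f) (v : V) (hv : 0 < f v) :
    ∃ p, (K.dist p v = f v ∨ (f v = 1 ∧ K.dist p v = 0)) ∧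
      ∀ u, u ≠ v → f u = 0 ∨ f u < K.dist p u := by
  obtain ⟨hb, hd, hm⟩ := hf
  set g : V → ℕ := Function.update f v (f v - 1) with hg
  have hgle : ∀ u, g u ≤ f u := by
    intro u
    by_cases h : u = v
    · subst h; simp [hg]
    · simp [hg, h]
  have hgb : IsBroadcast K g := fun u => (hgle u).trans (hb u)
  have hne : g ≠ f := by
    intro h
    have := congrFun h v
    simp [hg] at this
    omega
  have := hm g hgb hne hgle
  unfold IsDominating at this
  push Not at this
  obtain ⟨p, hp⟩ := this
  refine ⟨p, ?_, ?_⟩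
  · -- `p` hears `f`, but only from `v`
    have hpv : Hears K f p v := by
      obtain ⟨w, hw⟩ := hd p
      by_cases h : w = v
      · rw [← h]; exact hw
      · exfalso
        apply hp w
        unfold Hears at hw ⊢
        simpa [hg, h] using hw
    have h2 := hp v
    unfold Hears at h2 hpv
    simp only [hg, Function.update_self] at h2
    obtain ⟨h3, h4⟩ := hpv
    by_cases h1 : f v = 1
    · rw [h1] at h4 ⊢
      rcases Nat.eq_zero_or_pos (K.dist p v) with h5 | h5
      · right; exact ⟨rfl, h5⟩
      · left; omega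
    · left
      by_contra hcon
      apply h2
      constructor <;> omega
  · intro u hu
    have h2 := hp u
    unfold Hears at h2
    simp only [hg, Function.update_of_ne hu] at h2
    by_contra hcon
    push Not at hcon
    exact h2 ⟨Nat.pos_of_ne_zero hcon.1, hcon.2⟩

/-! ### The upper bound for `H` -/

/-- Eccentricities of the vertices of `H`. -/
def eccs : List ℕ := [2, 3, 3, 3, 4, 4, 4, 4]

/-- Given the values `L` of a broadcast on the first few vertices, the vertex `p` is not heard
from any of them except possibly `v`. -/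
def priv (L : List ℕ) (v p : ℕ) : Bool :=
  (List.range 8).all fun u => (u == v) || (L.getD u 0 == 0) || Nat.blt (L.getD u 0) (dm p u)

/-- Every broadcasting vertex among the first few has a private vertex. -/
def good (L : List ℕ) : Bool :=
  (List.range 8).all fun v => (L.getD v 0 == 0) ||
    (List.range 8).any fun p =>
      ((dm p v == L.getD v 0) || ((L.getD v 0 == 1) && (dm p v == 0))) && priv L v p

/-- All vertices hear the broadcast `L`. -/
def dom (L : List ℕ) : Bool :=
  (List.range 8).all fun p => (List.range 8).any fun v =>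
    Nat.blt 0 (L.getD v 0) && Nat.ble (dm p v) (L.getD v 0)

/-- Exhaustive search over the remaining values. -/
def search : ℕ → List ℕ → Bool
  | 0, L => !(good L) || !(dom L) || Nat.ble L.sum 4
  | n + 1, L => !(good L) ||
      (List.range (eccs.getD L.length 0 + 1)).all fun r => search n (L ++ [r])

theorem search_true : search 8 [] = true := by decide +kernel

/-- Extension of a function on `Fin 8` by zero. -/
def ext (f : Fin 8 → ℕ) (i : ℕ) : ℕ := if h : i < 8 then f ⟨i, h⟩ else 0

theorem ext_coe (f : Fin 8 → ℕ) (i : Fin 8) : ext f i = f i := by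
  simp [ext]

theorem getD_map (F : ℕ → ℕ) (k i : ℕ) :
    ((List.range k).map F).getD i 0 = if i < k then F i else 0 := by
  by_cases h : i < k
  · simp [List.getD, h]
  · simp [List.getD, h]

theorem good_of_minimal (f : Fin 8 → ℕ) (hf : IsMinimalDominating H f) (k : ℕ) :
    good ((List.range k).map (ext f)) = true := by
  unfold good
  rw [List.all_eq_true]
  intro v hv
  rw [List.mem_range] at hv
  rw [getD_map]
  by_cases hvk : v < k
  · rw [if_pos hvk]
    by_cases h0 : ext f v = 0
    · simp [h0]
    · have hv' : ext f v = f ⟨v, hv⟩ := by simp [ext, hv]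
      obtain ⟨p, hp1, hp2⟩ := exists_private H f hf ⟨v, hv⟩ (by
        rw [hv'] at h0; omega)
      rw [H_dist] at hp1
      rw [Bool.or_eq_true]
      right
      rw [List.any_eq_true]
      refine ⟨p, by simp, ?_⟩
      rw [Bool.and_eq_true]
      constructor
      · rw [hv']
        simp only [Bool.or_eq_true, beq_iff_eq, Bool.and_eq_true]
        rcases hp1 with h | h
        · left; exact h
        · right; exact h
      · unfold priv
        rw [List.all_eq_true]
        intro u hu
        rw [List.mem_range] at hu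
        rw [getD_map]
        by_cases huv : u = v
        · simp [huv]
        · by_cases huk : u < k
          · have hu' : ext f u = f ⟨u, hu⟩ := by simp [ext, hu]
            rw [if_pos huk, hu']
            have := hp2 ⟨u, hu⟩ (by
              intro hcon
              apply huv
              exact congrArg Fin.val hcon)
            rw [H_dist] at this
            rcases this with h | h
            · simp [h]
            · have h' : Nat.blt (f ⟨u, hu⟩) (dm (p : ℕ) u) = true := by
                rw [Nat.blt_eq]; exact h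
              rw [h']; simp
          · simp [huk]
  · simp [hvk]

theorem dom_of_minimal (f : Fin 8 → ℕ) (hf : IsMinimalDominating H f) :
    dom ((List.range 8).map (ext f)) = true := by
  unfold dom
  rw [List.all_eq_true]
  intro p hp
  rw [List.mem_range] at hp
  obtain ⟨v, hv1, hv2⟩ := hf.2.1 ⟨p, hp⟩
  rw [List.any_eq_true]
  refine ⟨v, by simp, ?_⟩
  rw [getD_map, if_pos v.2, ext_coe]
  rw [H_dist] at hv2
  rw [Bool.and_eq_true, Nat.blt_eq, Nat.ble_eq]
  exact ⟨hv1, hv2⟩

theorem ecc_H_le (v : Fin 8) : ecc H v ≤ eccs.getD v 0 := by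
  apply Finset.sup_le
  intro u _
  rw [H_dist]
  revert u v
  decide +kernel

theorem search_sound (f : Fin 8 → ℕ) (hf : IsMinimalDominating H f) :
    ∀ (n k : ℕ), k + n = 8 → search n ((List.range k).map (ext f)) = true →
      ((List.range 8).map (ext f)).sum ≤ 4 := by
  intro n
  induction n with
  | zero =>
    intro k hk hs
    have hk8 : k = 8 := by omega
    subst hk8
    unfold search at hs
    rw [good_of_minimal f hf 8, dom_of_minimal f hf] at hs
    simpa using hs
  | succ n ih =>
    intro k hk hs
    unfold search at hs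
    rw [good_of_minimal f hf k] at hs
    simp only [Bool.not_true, Bool.false_or, List.length_map, List.length_range] at hs
    rw [List.all_eq_true] at hs
    have hk8 : k < 8 := by omega
    have hF : ext f k = f ⟨k, hk8⟩ := by simp [ext, hk8]
    have hle : ext f k ≤ eccs.getD k 0 := by
      rw [hF]
      exact (hf.1 ⟨k, hk8⟩).trans (ecc_H_le ⟨k, hk8⟩)
    have := hs (ext f k) (List.mem_range.2 (by omega))
    apply ih (k + 1) (by omega)
    rw [List.range_succ, List.map_append]
    exact this

theorem cost_le (f : Fin 8 → ℕ) (hf : IsMinimalDominating H f) : cost f ≤ 4 := by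
  have h := search_sound f hf 8 0 rfl search_true
  have h2 : cost f = ((List.range 8).map (ext f)).sum := by
    unfold cost
    rw [Fin.sum_univ_eight]
    simp [List.range_succ, ext]
    ring
  rw [h2]; exact h

theorem upper_H : upperBroadcast H ≤ 4 := by
  unfold upperBroadcast
  by_cases hne : {c | ∃ f : Fin 8 → ℕ, IsMinimalDominating H f ∧ cost f = c}.Nonempty
  · apply csSup_le hne
    rintro c ⟨f, hf, rfl⟩
    exact cost_le f hf
  · rw [Set.not_nonempty_iff_eq_empty] at hne
    rw [hne]; simp

/-! ### The lower bound for `G` -/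

/-- The broadcast with value `3` at the vertex `4` and value `2` at the vertex `6`. -/
def bc (v : G.verts) : ℕ := if v.1 = 4 then 3 else if v.1 = 6 then 2 else 0

/-- Vertices of `G` as elements of the subtype. -/
def gv (v : Fin 8) (h : v ≠ 7) : G.verts := ⟨v, (mem_G v).2 h⟩

theorem hears_iff (f : G.verts → ℕ) (u v : G.verts) :
    Hears G.coe f u v ↔ 0 < f v ∧ dm (u.1 : ℕ) (v.1 : ℕ) ≤ f v := by
  unfold Hears; rw [G_dist]

theorem le_ecc_G (u v : G.verts) : dm (u.1 : ℕ) (v.1 : ℕ) ≤ ecc G.coe v := by
  rw [← G_dist]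
  exact Finset.le_sup (f := fun u => G.coe.dist u v) (Finset.mem_univ u)

theorem bc_minimal : IsMinimalDominating G.coe bc := by
  refine ⟨?_, ?_, ?_⟩
  · intro v
    unfold bc
    split_ifs with h1 h2
    · refine le_trans ?_ (le_ecc_G (gv 2 (by decide)) v)
      rw [h1]; decide +kernel
    · refine le_trans ?_ (le_ecc_G (gv 5 (by decide)) v)
      rw [h2]; decide +kernel
    · exact Nat.zero_le _
  · intro u
    have key : ∀ u : Fin 8, u ≠ 7 → dm u 4 ≤ 3 ∨ dm u 6 ≤ 2 := by decide +kernel
    rcases key u.1 ((mem_G _).1 u.2) with h | h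
    · refine ⟨gv 4 (by decide), ?_⟩
      rw [hears_iff]
      exact ⟨by decide +kernel, h⟩
    · refine ⟨gv 6 (by decide), ?_⟩
      rw [hears_iff]
      exact ⟨by decide +kernel, h⟩
  · intro g hg hne hle hd
    -- `2` hears only from `4`, at distance `3`; `5` hears only from `6`, at distance `2`
    have h4 : g (gv 4 (by decide)) = 3 := by
      obtain ⟨v, hv⟩ := hd (gv 2 (by decide))
      rw [hears_iff] at hv
      have hv2 := hle v
      unfold bc at hv2
      split_ifs at hv2 with h1 h2
      · have : v = gv 4 (by decide) := Subtype.ext h1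
        rw [← this]
        have h3 : dm ((gv 2 (by decide)).1 : ℕ) (v.1 : ℕ) = 3 := by rw [h1]; decide +kernel
        omega
      · exfalso
        have h3 : dm ((gv 2 (by decide)).1 : ℕ) (v.1 : ℕ) = 3 := by rw [h2]; decide +kernel
        omega
      · omega
    have h6 : g (gv 6 (by decide)) = 2 := by
      obtain ⟨v, hv⟩ := hd (gv 5 (by decide))
      rw [hears_iff] at hv
      have hv2 := hle v
      unfold bc at hv2
      split_ifs at hv2 with h1 h2
      · exfalso
        have h3 : dm ((gv 5 (by decide)).1 : ℕ) (v.1 : ℕ) = 4 := by rw [h1]; decide +kernel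
        omega
      · have : v = gv 6 (by decide) := Subtype.ext h2
        rw [← this]
        have h3 : dm ((gv 5 (by decide)).1 : ℕ) (v.1 : ℕ) = 2 := by rw [h2]; decide +kernel
        omega
      · omega
    apply hne
    funext v
    have hv := hle v
    unfold bc at hv ⊢
    split_ifs at hv ⊢ with h1 h2
    · have : v = gv 4 (by decide) := Subtype.ext h1
      rw [this]; exact h4
    · have : v = gv 6 (by decide) := Subtype.ext h2
      rw [this]; exact h6
    · omega

theorem cost_bc : 5 ≤ cost bc := by
  unfold cost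
  have h : ({gv 4 (by decide), gv 6 (by decide)} : Finset G.verts) ⊆ Finset.univ :=
    Finset.subset_univ _
  refine le_trans ?_ (Finset.sum_le_sum_of_subset h)
  rw [Finset.sum_pair]
  · decide +kernel
  · intro hcon
    have := congrArg Subtype.val hcon
    exact absurd this (by decide)

theorem upper_G : 5 ≤ upperBroadcast G.coe := by
  refine le_trans cost_bc ?_
  apply le_csSup
  · refine ⟨∑ v, ecc G.coe v, ?_⟩
    rintro c ⟨f, hf, rfl⟩
    exact Finset.sum_le_sum fun v _ => hf.1 v
  · exact ⟨bc, bc_minimal, rfl⟩

/-- The upper broadcast number is not monotone under passing to isometric subgraphs: there are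
a connected graph `H` on eight vertices and a connected isometric subgraph `G` of `H` on seven
vertices with `Γ_b(G) ≥ 5` and `Γ_b(H) ≤ 4`. -/
theorem result : ∃ (H : SimpleGraph (Fin 8)) (G : H.Subgraph) (_ : Fintype G.verts),
    G.verts = {v | v ≠ 7} ∧ H.Connected ∧ G.coe.Connected ∧
    (∀ u v : G.verts, G.coe.dist u v = H.dist u v) ∧
    upperBroadcast H ≤ 4 ∧ 5 ≤ upperBroadcast G.coe :=
  ⟨H, G, inferInstance, rfl, H_connected, G_connected,
    fun u v => by rw [G_dist, H_dist], upper_H, upper_G⟩

end Pool.Agent.Results.MP_3951c0_co.IsometricDrop
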